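import Pool.Agent.P8H50.NK.Stm4

/-! # Project NK, package LGB: the matrix of a family of points in other coordinates -/

set_option autoImplicit false
set_option linter.overlappingInstances false

namespace Pool.Agent.P8H69.NK

open Matrix
open Pool.Agent.P8H50.NK (fl big S_LGB)

/-- The determinant of a block diagonal matrix with blocks of different sizes. -/
theorem det_bd {K : Type} [Field K] {s : ℕ} {n : Fin s → ℕ}
    (E : ∀ j, Matrix (Fin (n j + 1)) (Fin (n j + 1)) K) :
    (Matrix.blockDiagonal' E).det = ∏ j, (E j).det := by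
  have hbt : (Matrix.blockDiagonal' E).BlockTriangular
      (Sigma.fst : (Σ j, Fin (n j + 1)) → Fin s) := by
    intro p p' h
    exact Matrix.blockDiagonal'_apply_ne E _ _ (ne_of_gt h)
  rw [hbt.det_fintype]
  refine Finset.prod_congr rfl fun j _ => ?_
  have hbij : Function.Bijective (fun a : Fin (n j + 1) =>
      (⟨⟨j, a⟩, rfl⟩ : {p : Σ j, Fin (n j + 1) // p.1 = j})) := by
    constructor
    · intro a b hab
      have h := congrArg Subtype.val hab
      simpa using h
    · rintro ⟨⟨j', a⟩, h⟩
      obtain rfl : j' = j := h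
      exact ⟨a, rfl⟩
  rw [← Matrix.det_submatrix_equiv_self (Equiv.ofBijective _ hbij)]
  congr 1
  ext a b
  exact Matrix.blockDiagonal'_apply_eq E j a b

/-- The matrix before the numbering of the columns. -/
noncomputable def pre {k K : Type} [Field k] [Field K] [Algebra k K] {s w : ℕ} {n : Fin s → ℕ}
    (y : ∀ j, Fin (n j + 1) → K) (D : Fin w → Derivation k K K) :
    Matrix (Fin w ⊕ Fin s) (Σ j, Fin (n j + 1)) K :=
  Matrix.of fun a p => Sum.elim (fun i => D i (fl y p)) (fun j => if p.1 = j then fl y p else 0) a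

theorem big_eq {k K : Type} [Field k] [Field K] [Algebra k K] {s w : ℕ} {n : Fin s → ℕ}
    (ε : (Σ j, Fin (n j + 1)) ≃ Fin w ⊕ Fin s) (y : ∀ j, Fin (n j + 1) → K)
    (D : Fin w → Derivation k K K) : big ε y D = (pre y D).submatrix id ε.symm := by
  ext a b
  rfl

theorem lgb : S_LGB := by
  intro k K _ _ _ s w n ε D y C c hc
  classical
  obtain ⟨E, hE⟩ : ∃ E : ∀ j, Matrix (Fin (n j + 1)) (Fin (n j + 1)) K,
    E = fun j => (C j).map (algebraMap k K) := ⟨_, rfl⟩
  have hE' : ∀ j a b, E j a b = algebraMap k K (C j a b) := fun j a b => by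
    rw [hE]
    rfl
  obtain ⟨G, hG⟩ : ∃ G : Matrix (Fin w ⊕ Fin s) (Fin w ⊕ Fin s) K,
    G = Matrix.fromBlocks 1 (Matrix.of fun i j => D i (c j) / c j) 0 1 := ⟨_, rfl⟩
  obtain ⟨N, hN⟩ : ∃ N : Matrix (Σ j, Fin (n j + 1)) (Σ j, Fin (n j + 1)) K,
    N = (Matrix.blockDiagonal' E)ᵀ * Matrix.diagonal (fun p => c p.1) := ⟨_, rfl⟩
  have hNdet : N.det = (∏ j, c j ^ (n j + 1)) * (∏ j, algebraMap k K (C j).det) := by
    rw [hN, Matrix.det_mul, Matrix.det_transpose, det_bd, Matrix.det_diagonal,
      Fintype.prod_sigma, mul_comm]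
    congr 1
    · refine Finset.prod_congr rfl fun j _ => ?_
      show ∏ _y : Fin (n j + 1), c j = c j ^ (n j + 1)
      rw [Finset.prod_const, Finset.card_univ, Fintype.card_fin]
    · refine Finset.prod_congr rfl fun j _ => ?_
      rw [hE, RingHom.map_det]
      rfl
  have hGdet : G.det = 1 := by
    rw [hG, Matrix.det_fromBlocks_zero₂₁, Matrix.det_one, Matrix.det_one, mul_one]
  -- a column of the product
  have hcol : ∀ (M : Matrix (Fin w ⊕ Fin s) (Σ j, Fin (n j + 1)) K) a j (x : Fin (n j + 1)),
      (M * N) a ⟨j, x⟩ = c j * ∑ b, E j x b * M a ⟨j, b⟩ := by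
    intro M a j x
    rw [hN, ← Matrix.mul_assoc, Matrix.mul_diagonal, mul_comm]
    congr 1
    rw [Matrix.mul_apply, Fintype.sum_sigma, Finset.sum_eq_single j]
    · refine Finset.sum_congr rfl fun b _ => ?_
      rw [Matrix.transpose_apply, Matrix.blockDiagonal'_apply_eq, mul_comm]
    · intro j' _ hj'
      refine Finset.sum_eq_zero fun b _ => ?_
      rw [Matrix.transpose_apply, Matrix.blockDiagonal'_apply_ne _ _ _ (Ne.symm hj'), mul_zero]
    · intro h
      exact absurd (Finset.mem_univ _) h
  have hGl : ∀ i p, (G * pre y D) (Sum.inl i) p = D i (fl y p) + D i (c p.1) / c p.1 * fl y p := by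
    intro i p
    rw [hG, Matrix.mul_apply, Fintype.sum_sum_type]
    simp only [Matrix.fromBlocks_apply₁₁, Matrix.fromBlocks_apply₁₂, pre, Matrix.of_apply,
      Sum.elim_inl, Sum.elim_inr, Matrix.one_apply]
    simp
  have hGr : ∀ j p, (G * pre y D) (Sum.inr j) p = if p.1 = j then fl y p else 0 := by
    intro j p
    rw [hG, Matrix.mul_apply, Fintype.sum_sum_type]
    simp only [Matrix.fromBlocks_apply₂₁, Matrix.fromBlocks_apply₂₂, pre, Matrix.of_apply,
      Sum.elim_inl, Sum.elim_inr, Matrix.one_apply]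
    simp only [Matrix.zero_apply, zero_mul, Finset.sum_const_zero, zero_add, ite_mul, one_mul,
      Finset.sum_ite_eq, Finset.mem_univ, if_true]
  have key : pre (fun j a => c j * ∑ b, algebraMap k K (C j a b) * y j b) D
      = G * pre y D * N := by
    ext a p
    obtain ⟨j, x⟩ := p
    rw [hcol]
    rcases a with i | j'
    · have h1 : pre (fun j a => c j * ∑ b, algebraMap k K (C j a b) * y j b) D (Sum.inl i) ⟨j, x⟩
          = D i (c j * ∑ b, algebraMap k K (C j x b) * y j b) := rfl
      rw [h1, Derivation.leibniz, map_sum]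
      simp only [hGl, smul_eq_mul, hE']
      have h2 : ∀ b, D i (algebraMap k K (C j x b) * y j b) = algebraMap k K (C j x b) * D i (y j b) := by
        intro b
        rw [Derivation.leibniz, Derivation.map_algebraMap, smul_zero, add_zero, smul_eq_mul]
      simp only [h2, fl]
      rw [Finset.mul_sum, Finset.mul_sum, Finset.sum_mul, ← Finset.sum_add_distrib]
      refine Finset.sum_congr rfl fun b _ => ?_
      have := hc j
      field_simp
    · have h1 : pre (fun j a => c j * ∑ b, algebraMap k K (C j a b) * y j b) D (Sum.inr j') ⟨j, x⟩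
          = if j = j' then c j * ∑ b, algebraMap k K (C j x b) * y j b else 0 := rfl
      rw [h1]
      simp only [hGr, hE', fl]
      split_ifs with h
      · rfl
      · simp
  rw [big_eq, big_eq, key, ← Matrix.submatrix_mul_equiv (G * pre y D) N id ε.symm ε.symm,
    Matrix.det_mul, Matrix.det_submatrix_equiv_self, hNdet]
  have h3 : (G * pre y D).submatrix id ε.symm = G * (pre y D).submatrix id ε.symm := by
    ext a b
    rfl
  rw [h3, Matrix.det_mul, hGdet, one_mul, mul_comm]

end Pool.Agent.P8H69.NK
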